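import Mathlib

/-! A unipotent automorphism of the projective plane over `ℚ`, a line and a point for which the
adelic closure of the orbit meets the adelic points of the line although the orbit misses it. -/

namespace Pool.Agent.Results.MP_80da57_nt.Unip

open Set Filter Topology

/-- the points of the projective plane over `K` -/
def P2 (K : Type) [Field K] : Type := Projectivization K (Fin 3 → K)

/-- the point with homogeneous coordinates `v` -/
def pt (K : Type) [Field K] (v : Fin 3 → K) (hv : v ≠ 0) : P2 K := Projectivization.mk K v hv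

/-- the quotient topology from `K³ \ {0}` -/
instance (K : Type) [Field K] [TopologicalSpace K] : TopologicalSpace (P2 K) :=
  TopologicalSpace.coinduced (Projectivization.mk' K) inferInstance

/-- coordinatewise inclusion `ℚ³ → K³` -/
def inc (K : Type) [Field K] [Algebra ℚ K] : (Fin 3 → ℚ) →ₛₗ[algebraMap ℚ K] (Fin 3 → K) where
  toFun v := fun i => algebraMap ℚ K (v i)
  map_add' _ _ := funext fun _ => map_add _ _ _
  map_smul' _ _ := funext fun _ => map_mul (algebraMap ℚ K) _ _

theorem inc_inj (K : Type) [Field K] [Algebra ℚ K] : Function.Injective (inc K) :=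
  fun _ _ h => funext fun i => (algebraMap ℚ K).injective (congrFun h i)

/-- the inclusion `P²(ℚ) → P²(K)` -/
def bc (K : Type) [Field K] [Algebra ℚ K] : P2 ℚ → P2 K := Projectivization.map (inc K) (inc_inj K)

instance (p : Nat.Primes) : Fact (p : ℕ).Prime := ⟨p.2⟩

/-- adelic points of the projective plane: the product over all places of `ℚ` -/
abbrev Ad : Type := P2 ℝ × ((p : Nat.Primes) → P2 ℚ_[p])

/-- the diagonal embedding of the rational points -/
noncomputable def diag (Q : P2 ℚ) : Ad := (bc ℝ Q, fun p => bc ℚ_[p] Q)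

/-- the linear map `(x, y, z) ↦ (x + z, y + 2x + z, z)` -/
def F : (Fin 3 → ℚ) →ₗ[ℚ] (Fin 3 → ℚ) where
  toFun v := ![v 0 + v 2, v 1 + 2 * v 0 + v 2, v 2]
  map_add' _ _ := by ext i; fin_cases i <;> simp <;> ring
  map_smul' _ _ := by ext i; fin_cases i <;> simp <;> ring

theorem F_inj : Function.Injective F := by
  intro v w h
  have h0 : v 0 + v 2 = w 0 + w 2 := congrFun h 0
  have h1 : v 1 + 2 * v 0 + v 2 = w 1 + 2 * w 0 + w 2 := congrFun h 1
  have h2 : v 2 = w 2 := congrFun h 2
  ext i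
  fin_cases i <;> simp <;> linarith

/-- the induced automorphism of the projective plane -/
def f : P2 ℚ → P2 ℚ := Projectivization.map F F_inj

/-- the line `x = 0` -/
def Y (K : Type) [Field K] : Set (P2 K) := {Q | Projectivization.rep Q 0 = 0}

/-- adelic points of the line -/
def YA : Set Ad := {a | a.1 ∈ Y ℝ ∧ ∀ p : Nat.Primes, a.2 p ∈ Y ℚ_[p]}

theorem ne2 {K : Type} [Field K] (a b : K) : (![a, b, 1] : Fin 3 → K) ≠ 0 :=
  fun h => one_ne_zero (congrFun h 2)

theorem ne1 {K : Type} [Field K] (a b : K) : (![a, 1, b] : Fin 3 → K) ≠ 0 :=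
  fun h => one_ne_zero (congrFun h 1)

/-- the forward orbit of `[1 : 1 : 1]` -/
def orb : Set (P2 ℚ) := range fun n : ℕ => f^[n] (pt ℚ ![1, 1, 1] (ne2 1 1))

theorem iter (n : ℕ) : f^[n] (pt ℚ ![1, 1, 1] (ne2 1 1)) =
    pt ℚ ![(n : ℚ) + 1, ((n : ℚ) + 1) ^ 2, 1] (ne2 _ _) := by
  induction n with
  | zero => simp
  | succ n ih =>
    rw [Function.iterate_succ_apply', ih]
    refine (Projectivization.mk_eq_mk_iff' ℚ _ _ _ _).2 ⟨1, ?_⟩
    ext i
    fin_cases i <;> simp [F]
    ring

theorem mem_Y {K : Type} [Field K] (v : Fin 3 → K) (hv : v ≠ 0) :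
    pt K v hv ∈ Y K ↔ v 0 = 0 := by
  obtain ⟨a, ha⟩ := Projectivization.exists_smul_eq_mk_rep K v hv
  change Projectivization.rep (Projectivization.mk K v hv) 0 = 0 ↔ _
  rw [← ha]
  simp [Units.smul_def]

theorem plim {K : Type} [Field K] [TopologicalSpace K] {u : ℕ → Fin 3 → K} {v : Fin 3 → K}
    (hu : ∀ k, u k ≠ 0) (hv : v ≠ 0) (h : Tendsto u atTop (𝓝 v)) :
    Tendsto (fun k => pt K (u k) (hu k)) atTop
      (𝓝 (pt K v hv)) := by
  have hc : Continuous (fun w : {v : Fin 3 → K // v ≠ 0} => pt K w.1 w.2) :=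
    continuous_coinduced_rng
  exact (hc.tendsto ⟨v, hv⟩).comp
    (tendsto_subtype_rng.2 h : Tendsto (fun k => (⟨u k, hu k⟩ : {v : Fin 3 → K // v ≠ 0})) _ _)

theorem fac_padic (p : ℕ) [hp : Fact p.Prime] :
    Tendsto (fun k : ℕ => ((k.factorial : ℕ) : ℚ_[p])) atTop (𝓝 0) := by
  rw [NormedAddGroup.tendsto_nhds_zero]
  intro ε hε
  obtain ⟨m, hm⟩ := PadicInt.exists_pow_neg_lt p hε
  filter_upwards [eventually_ge_atTop (p ^ m)] with k hk
  refine lt_of_le_of_lt ?_ hm
  have h := (Padic.norm_int_le_pow_iff_dvd (p := p) (k.factorial : ℤ) m).2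
    (by exact_mod_cast Nat.dvd_factorial (pow_pos hp.1.pos m) hk)
  simpa using h

theorem result : Y ℚ ∩ orb = ∅ ∧ (YA ∩ closure (diag '' orb)).Nonempty ∧
    closure (diag '' (Y ℚ ∩ orb)) ≠ YA ∩ closure (diag '' orb) := by
  have h1 : Y ℚ ∩ orb = ∅ := by
    refine eq_empty_of_forall_notMem ?_
    rintro _ ⟨h, n, rfl⟩
    simp only [iter, mem_Y, Matrix.cons_val_zero] at h
    have : (0 : ℚ) ≤ n := Nat.cast_nonneg n
    linarith
  have h2 : (YA ∩ closure (diag '' orb)).Nonempty := by
    refine ⟨(pt ℝ ![0, 1, 0] (ne1 0 0),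
      fun p => pt ℚ_[p] ![0, 0, 1] (ne2 0 0)),
      ⟨(mem_Y _ _).2 rfl, fun p => (mem_Y _ _).2 rfl⟩, ?_⟩
    refine mem_closure_of_tendsto (b := atTop) (f := fun k : ℕ => diag (pt ℚ
      ![(k.factorial : ℚ), (k.factorial : ℚ) ^ 2, 1] (ne2 _ _))) ?_
      (Eventually.of_forall fun k => ⟨_, ⟨k.factorial - 1, ?_⟩, rfl⟩)
    · refine Tendsto.prodMk_nhds ?_ (tendsto_pi_nhds.2 fun p => ?_)
      · have hi : Tendsto (fun k : ℕ => ((k.factorial : ℕ) : ℝ)⁻¹) atTop (𝓝 0) :=
          tendsto_inv_atTop_zero.comp (tendsto_natCast_atTop_atTop.comp factorial_tendsto_atTop)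
        have := plim (K := ℝ) (u := fun k => ![((k.factorial : ℕ) : ℝ)⁻¹, 1,
          ((k.factorial : ℕ) : ℝ)⁻¹ ^ 2]) (fun k => ne1 _ _) (ne1 0 0) (tendsto_pi_nhds.2 fun i => by
            fin_cases i
            · simpa using hi
            · simp
            · simpa using hi.pow 2)
        refine this.congr fun k => ?_
        have h0 : ((k.factorial : ℕ) : ℝ) ≠ 0 := by exact_mod_cast k.factorial_ne_zero
        refine ((Projectivization.mk_eq_mk_iff' ℝ _ _ _ _).2 ⟨((k.factorial : ℕ) : ℝ) ^ 2, ?_⟩).symm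
        ext i
        fin_cases i <;> simp [inc] <;> field_simp
      · have hi := fac_padic p
        have := plim (K := ℚ_[p]) (u := fun k => ![((k.factorial : ℕ) : ℚ_[p]),
          ((k.factorial : ℕ) : ℚ_[p]) ^ 2, 1]) (fun k => ne2 _ _) (ne2 0 0)
          (tendsto_pi_nhds.2 fun i => by
            fin_cases i
            · simpa using hi
            · simpa using hi.pow 2
            · simp)
        refine this.congr fun k => ?_
        refine (Projectivization.mk_eq_mk_iff' ℚ_[p] _ _ _ _).2 ⟨1, ?_⟩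
        ext i
        fin_cases i <;> simp [inc]
    · have : ((k.factorial - 1 : ℕ) : ℚ) + 1 = k.factorial := by
        rw [Nat.cast_sub k.factorial_pos]; simp
      simp only [iter, this]
  refine ⟨h1, h2, fun h => ?_⟩
  rw [← h, h1] at h2
  simp at h2

end Pool.Agent.Results.MP_80da57_nt.Unip
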